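import Pool.Agent.Helper74.NW.Model

/-!
# The deterministic program which keeps one row

A program given by a list of instructions (a query and a change of the memory, both depending on the memory) is turned
into a branching program; the instructions for one row of the network are executed one after the other.
-/

set_option autoImplicit false
set_option linter.unusedSectionVars false

namespace Pool.Agent.Helper84.NW

open Pool.Agent.Helper74.NW Pool.Agent.Helper19.NF

/-! ## Scripts -/

section script

variable {C W Z M : Type}

/-- An instruction: the cell to be queried and the change of the memory. -/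
abbrev Ins (C W M : Type) : Type := (M → C) × (M → W → M)

/-- The memory after the instructions. -/
def exec (I : C → W) : List (Ins C W M) → M → M
  | [], m => m
  | p :: L, m => exec I L (p.2 m (I (p.1 m)))

/-- The queries. -/
def qs (I : C → W) : List (Ins C W M) → M → List C
  | [], _ => []
  | p :: L, m => p.1 m :: qs I L (p.2 m (I (p.1 m)))

theorem exec_append (I : C → W) (L L' : List (Ins C W M)) (m : M) :
    exec I (L ++ L') m = exec I L' (exec I L m) := by
  induction L generalizing m with
  | nil => rfl
  | cons p L ih => exact ih _

theorem length_qs (I : C → W) (L : List (Ins C W M)) (m : M) : (qs I L m).length = L.length := by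
  induction L generalizing m with
  | nil => rfl
  | cons p L ih => simp only [qs, List.length_cons, ih]

/-- Change the memory by `f` before the first instruction. -/
def pre (f : M → M) : List (Ins C W M) → List (Ins C W M)
  | [] => []
  | p :: L => (fun m => p.1 (f m), fun m => p.2 (f m)) :: L

theorem exec_pre (I : C → W) (f : M → M) {L : List (Ins C W M)} (h : L ≠ []) (m : M) :
    exec I (pre f L) m = exec I L (f m) := by
  cases L with
  | nil => exact absurd rfl h
  | cons p L => rfl

theorem length_pre (f : M → M) (L : List (Ins C W M)) : (pre f L).length = L.length := by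
  cases L <;> rfl

/-- The states of a deterministic program have exactly one successor for each answer. -/
def Det {S : ℕ} (P : NProg C W Z S) : Prop := ∀ s c next, P.act s = Sum.inl (c, next) → ∀ w, ∃ t, next w = {t}

theorem Det.unique {S : ℕ} {P : NProg C W Z S} (hP : Det P) {I : C → W} {s t : Fin S} {l : List C} {z : Z}
    (h : P.Run I s l t) (hz : P.act t = Sum.inr z) :
    ∀ {l' t' z'}, P.Run I s l' t' → P.act t' = Sum.inr z' → l' = l ∧ z' = z := by
  induction h with
  | nil s =>
    intro l' t' z' h' hz'
    cases h' with
    | nil => exact ⟨rfl, Sum.inr_injective (hz'.symm.trans hz)⟩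
    | cons _ s' _ c next l h1 h2 h3 => rw [hz] at h1; exact absurd h1 (by simp)
  | cons s s' t c next l h1 h2 _ ih =>
    intro l' t' z' h' hz'
    cases h' with
    | nil => rw [hz'] at h1; exact absurd h1 (by simp)
    | cons _ s'' _ c' next' l' h1' h2' h3' =>
      have e := Sum.inl_injective (h1'.symm.trans h1)
      obtain ⟨rfl, rfl⟩ := Prod.mk.inj e
      obtain ⟨x, hx⟩ := hP _ _ _ h1 (I c')
      rw [hx] at h2 h2'
      have e2 : s'' = s' := (Set.mem_singleton_iff.mp h2').trans (Set.mem_singleton_iff.mp h2).symm
      subst e2
      obtain ⟨e3, e4⟩ := ih hz h3' hz'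
      exact ⟨by rw [e3], e4⟩

/-- The program given by a list of instructions. -/
theorem script_program [Fintype M] (L : List (Ins C W M)) (m₀ : M) (fin : M → Z) :
    ∃ P : NProg C W Z ((L.length + 1) * Fintype.card M), Det P ∧ ∀ I, P.Ends I (qs I L m₀) (fin (exec I L m₀)) := by
  classical
  let e : Fin (L.length + 1) × M ≃ Fin ((L.length + 1) * Fintype.card M) :=
    Fintype.equivFinOfCardEq (by rw [Fintype.card_prod, Fintype.card_fin])
  let act : Fin (L.length + 1) × M → (C × (W → Set (Fin ((L.length + 1) * Fintype.card M)))) ⊕ Z := fun q =>
    if h : (q.1 : ℕ) < L.length then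
      Sum.inl ((L[(q.1 : ℕ)]).1 q.2, fun b => {e (⟨(q.1 : ℕ) + 1, by omega⟩, (L[(q.1 : ℕ)]).2 q.2 b)})
    else Sum.inr (fin q.2)
  let P : NProg C W Z ((L.length + 1) * Fintype.card M) :=
    { start := e (0, m₀)
      act := fun s => act (e.symm s) }
  refine ⟨P, fun s c next h b => ?_, fun I => ?_⟩
  · change act (e.symm s) = _ at h
    by_cases h1 : ((e.symm s).1 : ℕ) < L.length
    · simp only [act, h1, dite_true] at h
      have h2 := (Prod.mk.inj (Sum.inl_injective h)).2
      rw [← h2]
      exact ⟨_, rfl⟩
    · simp only [act, h1, dite_false] at h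
      exact absurd h (by simp)
  · have key : ∀ (L' K : List (Ins C W M)) (m : M) (hK : K ++ L' = L) (i : Fin (L.length + 1)),
        (i : ℕ) = K.length → P.Run I (e (i, m)) (qs I L' m) (e (Fin.last _, exec I L' m)) := by
      intro L'
      induction L' with
      | nil =>
        intro K m hK i hi
        rw [List.append_nil] at hK
        have h1 : i = Fin.last _ := Fin.ext (by rw [hi, hK]; rfl)
        rw [h1]
        exact NProg.Run.nil _
      | cons p L' ih =>
        intro K m hK i hi
        have hlen : K.length + (L'.length + 1) = L.length := by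
          rw [← hK, List.length_append, List.length_cons]
        have h1 : (i : ℕ) < L.length := by omega
        have h2 : L[(i : ℕ)] = p := by
          have : L[(i : ℕ)]? = some p := by
            rw [hi, ← hK, List.getElem?_append_right le_rfl, Nat.sub_self]
            rfl
          rw [List.getElem?_eq_getElem h1] at this
          exact Option.some_injective _ this
        refine NProg.Run.cons (e (i, m)) (e (⟨(i : ℕ) + 1, by omega⟩, p.2 m (I (p.1 m)))) _ (p.1 m)
          (fun b => {e (⟨(i : ℕ) + 1, by omega⟩, p.2 m b)}) _ ?_ rfl ?_
        · change act (e.symm (e (i, m))) = _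
          rw [Equiv.symm_apply_apply]
          simp only [act, h1, dite_true, h2]
        · exact ih (K ++ [p]) _ (by rw [List.append_assoc]; exact hK) _
            (by simp only [List.length_append, List.length_singleton]; omega)
    refine ⟨_, key L [] m₀ rfl 0 rfl, ?_⟩
    change act (e.symm (e _)) = _
    rw [Equiv.symm_apply_apply]
    simp [act]

end script

/-! ## The network -/

variable {U D B : Type} [Fintype U] [Fintype D] [AddCommGroup B]

/-- The memory: the current row and the part of the next row computed so far. -/
abbrev Mem (U B : Type) : Type := (U → B) × (U → B)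

/-- Before a row is computed, the new row becomes the current one. -/
def shift (m : Mem U B) : Mem U B := (m.2, 0)

open Classical in
/-- Add the entries of the word found at the place `v` of the row to the elements of the new row which use it. -/
noncomputable def stepIns (g : D → Equiv.Perm U) (v : U) : Ins B (D → B) (Mem U B) :=
  (fun m => m.1 v, fun m w => (m.1, m.2 + ∑ c, Pi.single ((g c).symm v) (w c)))

open Classical in
/-- Add the entry number `c` of the word found at the place `v` of the row to the place `u₀` of the new row. -/
noncomputable def lastIns (c : D) (u₀ v : U) : Ins B (D → B) (Mem U B) :=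
  (fun m => m.1 v, fun m w => (m.1, m.2 + Pi.single u₀ (w c)))

/-- The instructions for one row. -/
noncomputable def block (g : D → Equiv.Perm U) : List (Ins B (D → B) (Mem U B)) :=
  (Finset.univ : Finset U).toList.map (stepIns g)

/-- The instructions for the rows `1, ..., R`. -/
noncomputable def rows (g : D → Equiv.Perm U) : ℕ → List (Ins B (D → B) (Mem U B))
  | 0 => []
  | R + 1 => rows g R ++ pre shift (block g)

/-- The instructions for the result. -/
noncomputable def lastBlock (c : D) (u₀ : U) : List (Ins B (D → B) (Mem U B)) :=
  (Finset.univ : Finset U).toList.map (lastIns c u₀)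

open Classical in
theorem exec_step (g : D → Equiv.Perm U) (I : B → D → B) (l : List U) (m : Mem U B) :
    exec I (l.map (stepIns g)) m =
      (m.1, m.2 + (l.map (fun v => (∑ c, Pi.single ((g c).symm v) (I (m.1 v) c) : U → B))).sum) := by
  induction l generalizing m with
  | nil => simp [exec]
  | cons p l ih =>
    simp only [List.map_cons, exec, List.sum_cons]
    rw [ih]
    simp only [stepIns, add_assoc]

open Classical in
theorem exec_last (c : D) (u₀ : U) (I : B → D → B) (l : List U) (m : Mem U B) :
    exec I (l.map (lastIns c u₀)) m =
      (m.1, m.2 + (l.map (fun v => (Pi.single u₀ (I (m.1 v) c) : U → B))).sum) := by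
  induction l generalizing m with
  | nil => simp [exec]
  | cons p l ih =>
    simp only [List.map_cons, exec, List.sum_cons]
    rw [ih]
    simp only [lastIns, add_assoc]

theorem exec_block [Nonempty U] (g : D → Equiv.Perm U) (I : B → D → B) (x y : U → B) :
    exec I (pre shift (block g)) (x, y) = (y, fun u => ∑ c, I (y (g c u)) c) := by
  classical
  have hne : (block g : List (Ins B (D → B) (Mem U B))) ≠ [] := by
    unfold block
    rw [Ne, List.map_eq_nil_iff, Finset.toList_eq_nil]
    exact Finset.univ_nonempty.ne_empty
  rw [exec_pre I shift hne]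
  unfold block
  rw [exec_step]
  simp only [shift, zero_add]
  congr 1
  rw [Finset.sum_map_toList]
  funext u
  rw [Finset.sum_apply]
  simp only [Finset.sum_apply]
  rw [Finset.sum_comm]
  refine Finset.sum_congr rfl fun c _ => ?_
  rw [Finset.sum_eq_single (g c u)]
  · rw [Equiv.symm_apply_apply, Pi.single_eq_same]
  · intro v _ hv
    rw [Pi.single_eq_of_ne]
    intro h
    exact hv (by rw [h, Equiv.apply_symm_apply])
  · intro h
    exact absurd (Finset.mem_univ _) h

theorem exec_rows [Nonempty U] (g : D → Equiv.Perm U) (x0 : U → B) (I : B → D → B) (R : ℕ) :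
    (exec I (rows g R) ((0, x0) : Mem U B)).2 = val g x0 I R := by
  induction R with
  | zero => rfl
  | succ R ih =>
    rw [rows, exec_append]
    rcases h : exec I (rows g R) ((0, x0) : Mem U B) with ⟨x, y⟩
    rw [h] at ih
    rw [exec_block]
    change y = _ at ih
    subst ih
    rfl

theorem exec_all [Nonempty U] (g : D → Equiv.Perm U) (x0 : U → B) (I : B → D → B) (R : ℕ) (c : D) (u₀ : U) :
    (exec I (rows g R ++ pre shift (lastBlock c u₀)) ((0, x0) : Mem U B)).2 u₀ = res g x0 R c I := by
  classical
  have hne : (lastBlock c u₀ : List (Ins B (D → B) (Mem U B))) ≠ [] := by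
    unfold lastBlock
    rw [Ne, List.map_eq_nil_iff, Finset.toList_eq_nil]
    exact Finset.univ_nonempty.ne_empty
  rw [exec_append, exec_pre I shift hne]
  unfold lastBlock
  rw [exec_last]
  simp only [shift, zero_add, exec_rows]
  rw [Finset.sum_map_toList, Finset.sum_apply]
  unfold res
  refine Finset.sum_congr rfl fun u _ => ?_
  rw [Pi.single_eq_same]

theorem length_rows (g : D → Equiv.Perm U) (R : ℕ) :
    (rows g R : List (Ins B (D → B) (Mem U B))).length = R * Fintype.card U := by
  induction R with
  | zero => simp [rows]
  | succ R ih =>
    rw [rows, List.length_append, ih, length_pre, block, List.length_map, Finset.length_toList, Finset.card_univ]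
    ring

/-- WU: the deterministic program which keeps a row. -/
theorem row_program [Fintype B] [Nonempty D] [Nonempty U] (g : D → Equiv.Perm U) (x0 : U → B) (R : ℕ) (c : D) :
    ∃ S ≤ ((R + 1) * Fintype.card U + 1) * Fintype.card B ^ (2 * Fintype.card U),
      ∃ P : NProg B (D → B) B S, (∀ s b next, P.act s = Sum.inl (b, next) → ∀ w, ∃ t, next w = {t}) ∧
      ∀ I, ∃ l, P.Ends I l (res g x0 R c I) ∧ (∀ l' z, P.Ends I l' z → l' = l ∧ z = res g x0 R c I) ∧
        Nat.card {b // b ∈ l} ≤ (R + 1) * Fintype.card U := by
  classical
  let u₀ : U := Classical.arbitrary U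
  have hlen : (rows g R ++ pre shift (lastBlock c u₀) : List (Ins B (D → B) (Mem U B))).length =
      (R + 1) * Fintype.card U := by
    rw [List.length_append, length_rows, length_pre, lastBlock, List.length_map, Finset.length_toList,
      Finset.card_univ]
    ring
  obtain ⟨P, hP, h⟩ := script_program (rows g R ++ pre shift (lastBlock c u₀) : List (Ins B (D → B) (Mem U B)))
    (0, x0) (fun m => m.2 u₀)
  refine ⟨_, le_of_eq ?_, P, hP, fun I => ?_⟩
  · rw [hlen, Fintype.card_prod, Fintype.card_fun, ← pow_add, two_mul]
  · refine ⟨_, by rw [← exec_all g x0 I R c u₀]; exact h I, fun l' z hl' => ?_, ?_⟩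
    · obtain ⟨t, h1, h2⟩ := h I
      obtain ⟨t', h1', h2'⟩ := hl'
      rw [exec_all] at h2
      exact hP.unique h1 h2 h1' h2'
    · rw [← hlen, ← length_qs I _ ((0, x0) : Mem U B)]
      set l := qs I (rows g R ++ pre shift (lastBlock c u₀)) ((0, x0) : Mem U B)
      have h5 : Nat.card {b // b ∈ l} = Nat.card {b // b ∈ l.toFinset} :=
        Nat.card_congr (Equiv.subtypeEquivRight fun b => by rw [List.mem_toFinset])
      rw [h5, Nat.card_eq_fintype_card, Fintype.card_coe]
      exact List.toFinset_card_le l

end Pool.Agent.Helper84.NW
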